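import Pool.Agent.X185.GR.Main

/-!
# MP_955413_lc: Grothendieck property and uniform convergence of homomorphisms

If a Boolean algebra has the Grothendieck property, or only the positive Grothendieck property,
then every pointwise algebraically convergent sequence of homomorphisms into a measure algebra
converges uniformly.
-/

set_option autoImplicit false

namespace Pool.Agent.Results.MP_955413_lc.UniformConvergence

open MeasureTheory Pool.Agent.X185.GR

theorem result {A : Type*} [BooleanAlgebra A] (hA : Grothendieck A ∨ PosGrothendieck A)
    {Ω : Type*} [MeasurableSpace Ω] (P : Measure Ω) [IsProbabilityMeasure P]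
    (φ : ℕ → A → Set Ω) (ψ : A → Set Ω) (hφ : ∀ n, IsHom P (φ n)) (hψ : IsHom P ψ)
    (h : AlgTendsto P φ ψ) : UnifTendsto P φ ψ :=
  main (hA.elim (fun h => h.pos) id) hφ hψ h

end Pool.Agent.Results.MP_955413_lc.UniformConvergence
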